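import Mathlib
import Pool.Agent.Q128.PI.Cls
import Pool.Agent.Q128.PI.Two

/-! Unramified period-index: almost all classes of prime period on abelian varieties with two divisor classes. -/

set_option autoImplicit false
set_option linter.all false

open Matrix

namespace Pool.Agent.Results.MP_43d240_ag.AlmostAllClasses

open Pool.Agent.H552R3.SymBr Pool.Agent.H552R3.SymPred Pool.Agent.Y109.PI Pool.Agent.Q128.PI

universe u

/-- Let `K` be an extension of an algebraically closed field `k`, let `p` be a prime number, `ζ ∈ K` a primitive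
`p`-th root of unity and `z_1, ..., z_{2g}` nonzero elements of `K`; let `θ u v` be the class of the symbol algebra
`(z_u, z_v)` of degree `p`. Suppose that there are two integral matrices `w, w'` with
`∑ w(u,v) (z_u, z_v) = ∑ w'(u,v) (z_u, z_v) = 0` in `Br(K)` such that `w - wᵀ` and `w' - w'ᵀ` are linearly
independent modulo `p`. Let `S` be the subgroup of `Br(K)` generated by the classes `(z_u, z_v)`. Then `S` is finite,
and the proportion of the classes `α` in `S` which are not sums of `g - 1` symbols of degree `p` or do not have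
index dividing `p ^ (g - 1)` is less than `2 / p`. -/
theorem result {k K : Type u} [Field k] [IsAlgClosed k] [Field K] [Algebra k K] (p : ℕ) (hp : p.Prime)
    (ζ : K) (hζ : IsPrimitiveRoot ζ p) (g : ℕ) (z : Fin (2 * g) → Kˣ)
    (θ : Fin (2 * g) → Fin (2 * g) → BrauerGroup.{u, u} K) (hθ : ∀ u v, IsSym p ζ (z u) (z v) (θ u v))
    (w w' : Fin (2 * g) → Fin (2 * g) → ℤ)
    (hw : ∀ c c' : ℤ, (∀ u v, (p : ℤ) ∣ c * (w u v - w v u) + c' * (w' u v - w' v u)) →
      (p : ℤ) ∣ c ∧ (p : ℤ) ∣ c')
    (hrel : ∏ u, ∏ v, θ u v ^ w u v = 1) (hrel' : ∏ u, ∏ v, θ u v ^ w' u v = 1)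
    (S : Subgroup (BrauerGroup.{u, u} K)) (hS : S = Subgroup.closure {γ | ∃ u v, γ = θ u v}) :
    Finite S ∧
      p * Nat.card {α : S // ¬ (IndDvd (α : BrauerGroup.{u, u} K) (p ^ (g - 1)) ∧
        ∃ (s t : Fin (g - 1) → Kˣ) (σ : Fin (g - 1) → BrauerGroup.{u, u} K),
          (∀ i, IsSym p ζ (s i) (t i) (σ i)) ∧ (α : BrauerGroup.{u, u} K) = ∏ i, σ i)} <
        2 * Nat.card S := by
  classical
  haveI : Fact p.Prime := ⟨hp⟩
  haveI : NeZero p := ⟨hp.ne_zero⟩
  have hg : 0 < g := by
    rcases Nat.eq_zero_or_pos g with rfl | h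
    · have h1 := hw 1 1 (fun u => absurd u.2 (by simp))
      have h2 := Int.isUnit_iff.1 (isUnit_of_dvd_one h1.1)
      have h3 := hp.one_lt
      rcases h2 with h | h <;> omega
    · exact h
  obtain ⟨hfin, hcard⟩ := count_classes (k := k) p ζ hζ g hg z θ hθ
    (Set.range fun x : ℤ × ℤ => x.1 • w + x.2 • w') (by
    rintro _ ⟨x, rfl⟩
    have h1 : ∏ u, ∏ v, θ u v ^ (x.1 • w + x.2 • w') u v =
        (∏ u, ∏ v, θ u v ^ w u v) ^ x.1 * (∏ u, ∏ v, θ u v ^ w' u v) ^ x.2 := by
      rw [← Finset.prod_zpow, ← Finset.prod_zpow, ← Finset.prod_mul_distrib]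
      refine Finset.prod_congr rfl fun u _ => ?_
      rw [← Finset.prod_zpow, ← Finset.prod_zpow, ← Finset.prod_mul_distrib]
      refine Finset.prod_congr rfl fun v _ => ?_
      rw [← _root_.zpow_mul, ← _root_.zpow_mul, mul_comm (w u v) x.1, mul_comm (w' u v) x.2, ← _root_.zpow_add]
      rfl
    rw [h1, hrel, hrel', _root_.one_zpow, _root_.one_zpow, one_mul]) S hS
  refine ⟨hfin, ?_⟩
  haveI := hfin
  set P : S → Prop := fun α => IndDvd (α : BrauerGroup.{u, u} K) (p ^ (g - 1)) ∧
        ∃ (s t : Fin (g - 1) → Kˣ) (σ : Fin (g - 1) → BrauerGroup.{u, u} K),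
          (∀ i, IsSym p ζ (s i) (t i) (σ i)) ∧ (α : BrauerGroup.{u, u} K) = ∏ i, σ i with hP
  set good := Nat.card {α : S // P α} with hgood
  set bad := Nat.card {α : S // ¬ P α} with hbad
  have hsum : good + bad = Nat.card S := by
    haveI : Fintype S := Fintype.ofFinite S
    rw [hgood, hbad, Nat.card_eq_fintype_card, Nat.card_eq_fintype_card, Nat.card_eq_fintype_card]
    have := Fintype.card_subtype_compl P
    have h2 := Fintype.card_subtype_le P
    omega
  have hh := almost (F := ZMod p) (I := Fin (2 * g)) (red p (dif w)) (red p (dif w'))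
    ⟨fun u => by simp [red, dif], fun u v => by simp [red, dif]⟩
    ⟨fun u => by simp [red, dif], fun u v => by simp [red, dif]⟩ (by
      intro x y hxy
      have h1 := hw ((x.val : ℕ) : ℤ) ((y.val : ℕ) : ℤ) (fun u v => by
        have h2 := congrFun (congrFun hxy u) v
        rw [← ZMod.intCast_zmod_eq_zero_iff_dvd]
        simp only [red, dif, Matrix.add_apply, Matrix.smul_apply, Matrix.map_apply, Matrix.of_apply, smul_eq_mul,
          eq_intCast, Matrix.zero_apply] at h2
        push_cast at h2 ⊢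
        simp only [ZMod.natCast_val, ZMod.cast_id', id]
        exact h2)
      have e : ∀ t : ZMod p, (p : ℤ) ∣ ((t.val : ℕ) : ℤ) → t = 0 := by
        intro t ht
        rw [← ZMod.intCast_zmod_eq_zero_iff_dvd] at ht
        push_cast at ht
        simpa using ht
      exact ⟨e x h1.1, e y h1.2⟩)
  rw [ZMod.card] at hh
  have h2 : (Finset.univ.filter fun v : Matrix (Fin (2 * g)) (Fin (2 * g)) (ZMod p) =>
      ∃ x y : ZMod p, (al v + (x • red p (dif w) + y • red p (dif w'))).det = 0).card ≤
      Nat.card {v : Matrix (Fin (2 * g)) (Fin (2 * g)) (ZMod p) //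
        ∃ w0 ∈ Set.range (fun x : ℤ × ℤ => x.1 • w + x.2 • w'), (al v + red p (dif w0)).det = 0} := by
    rw [Nat.card_eq_fintype_card, Fintype.card_subtype]
    refine Finset.card_le_card fun v hv => ?_
    rw [Finset.mem_filter] at hv ⊢
    obtain ⟨_, x, y, hx⟩ := hv
    refine ⟨Finset.mem_univ _, _, ⟨(((x.val : ℕ) : ℤ), ((y.val : ℕ) : ℤ)), rfl⟩, ?_⟩
    have e : red p (dif (((x.val : ℕ) : ℤ) • w + ((y.val : ℕ) : ℤ) • w')) =
        x • red p (dif w) + y • red p (dif w') := by
      ext u v
      simp only [red, dif, Matrix.map_apply, Matrix.of_apply, Pi.smul_apply, smul_eq_mul, eq_intCast,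
        Matrix.smul_apply, Pi.add_apply, Matrix.add_apply]
      push_cast
      simp only [ZMod.natCast_val, ZMod.cast_id', id]
      ring
    rw [e]
    exact hx
  set G := (Finset.univ.filter fun v : Matrix (Fin (2 * g)) (Fin (2 * g)) (ZMod p) =>
      ∃ x y : ZMod p, (al v + (x • red p (dif w) + y • red p (dif w'))).det = 0).card with hG
  set M := Fintype.card (Matrix (Fin (2 * g)) (Fin (2 * g)) (ZMod p)) with hM
  have hM0 : 0 < M := Fintype.card_pos
  have hS0 : 0 < Nat.card S := Nat.card_pos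
  have h3 : Nat.card S * G ≤ M * good := (Nat.mul_le_mul_left _ h2).trans hcard
  have h4 : Nat.card S * (p * M) < Nat.card S * (p * G + 2 * M) := Nat.mul_lt_mul_of_pos_left hh hS0
  have h5 : M * (p * Nat.card S) < M * (p * good + 2 * Nat.card S) := by
    calc M * (p * Nat.card S) = Nat.card S * (p * M) := by ring
      _ < Nat.card S * (p * G + 2 * M) := h4
      _ = p * (Nat.card S * G) + M * (2 * Nat.card S) := by ring
      _ ≤ p * (M * good) + M * (2 * Nat.card S) := Nat.add_le_add_right (Nat.mul_le_mul_left _ h3) _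
      _ = _ := by ring
  have h6 := Nat.lt_of_mul_lt_mul_left h5
  change p * bad < 2 * Nat.card S
  rw [← hsum] at h6 ⊢
  nlinarith [h6]

end Pool.Agent.Results.MP_43d240_ag.AlmostAllClasses
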