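import Mathlib
import Pool.Agent.Q128.PI.Cls

/-! Unramified period-index: more than half of the classes of prime period on every abelian variety. -/

set_option autoImplicit false
set_option linter.all false

open Matrix

namespace Pool.Agent.Results.MP_43d240_ag.HalfOfTheClasses

open Pool.Agent.H552R3.SymBr Pool.Agent.H552R3.SymPred Pool.Agent.Y109.PI Pool.Agent.Q128.PI

universe u

/-- Let `K` be an extension of an algebraically closed field `k`, let `p` be a prime number, `ζ ∈ K` a primitive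
`p`-th root of unity and `z_1, ..., z_{2g}` nonzero elements of `K`; let `θ u v` be the class of the symbol algebra
`(z_u, z_v)` of degree `p`. Suppose that there is an integral matrix `w` with `∑ w(u,v) (z_u, z_v) = 0` in `Br(K)`
such that `w - wᵀ` is not divisible by `p`. Let `S` be the subgroup of `Br(K)` generated by the classes
`(z_u, z_v)`. Then `S` is finite, and more than half of the classes `α` in `S` are sums of `g - 1` symbols of
degree `p` and have index dividing `p ^ (g - 1)`. -/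
theorem result {k K : Type u} [Field k] [IsAlgClosed k] [Field K] [Algebra k K] (p : ℕ) (hp : p.Prime)
    (ζ : K) (hζ : IsPrimitiveRoot ζ p) (g : ℕ) (z : Fin (2 * g) → Kˣ)
    (θ : Fin (2 * g) → Fin (2 * g) → BrauerGroup.{u, u} K) (hθ : ∀ u v, IsSym p ζ (z u) (z v) (θ u v))
    (w : Fin (2 * g) → Fin (2 * g) → ℤ) (hw : ∃ u v, ¬ (p : ℤ) ∣ w u v - w v u)
    (hrel : ∏ u, ∏ v, θ u v ^ w u v = 1)
    (S : Subgroup (BrauerGroup.{u, u} K)) (hS : S = Subgroup.closure {γ | ∃ u v, γ = θ u v}) :
    Finite S ∧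
      Nat.card S < 2 * Nat.card {α : S // IndDvd (α : BrauerGroup.{u, u} K) (p ^ (g - 1)) ∧
        ∃ (s t : Fin (g - 1) → Kˣ) (σ : Fin (g - 1) → BrauerGroup.{u, u} K),
          (∀ i, IsSym p ζ (s i) (t i) (σ i)) ∧ (α : BrauerGroup.{u, u} K) = ∏ i, σ i} := by
  haveI : Fact p.Prime := ⟨hp⟩
  have hg : 0 < g := by
    rcases Nat.eq_zero_or_pos g with rfl | h
    · obtain ⟨u, _⟩ := hw
      exact absurd u.2 (by simp)
    · exact h
  have hθ' : ∀ u v, θ u v = symHom hp.pos hζ (z u) (z v) := fun u v =>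
    (isSym_iff hp.pos hζ (z u) (z v) (θ u v)).1 (hθ u v)
  obtain ⟨hfin, hcard⟩ := count_classes (k := k) p ζ hζ g hg z θ hθ (Set.range fun x : ℤ => x • w) (by
    rintro _ ⟨x, rfl⟩
    have h1 : ∏ u, ∏ v, θ u v ^ (x • w) u v = (∏ u, ∏ v, θ u v ^ w u v) ^ x := by
      rw [← Finset.prod_zpow]
      refine Finset.prod_congr rfl fun u _ => ?_
      rw [← Finset.prod_zpow]
      refine Finset.prod_congr rfl fun v _ => ?_
      rw [← _root_.zpow_mul, mul_comm (w u v) x]
      rfl
    rw [h1, hrel, _root_.one_zpow]) S hS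
  refine ⟨hfin, ?_⟩
  haveI := hfin
  set good := Nat.card {α : S // IndDvd (α : BrauerGroup.{u, u} K) (p ^ (g - 1)) ∧
        ∃ (s t : Fin (g - 1) → Kˣ) (σ : Fin (g - 1) → BrauerGroup.{u, u} K),
          (∀ i, IsSym p ζ (s i) (t i) (σ i)) ∧ (α : BrauerGroup.{u, u} K) = ∏ i, σ i} with hgood
  have hh := half (F := ZMod p) (I := Fin (2 * g)) (red p (dif w))
    ⟨fun u => by simp [red, dif], fun u v => by simp [red, dif]⟩ (by
      obtain ⟨u, v, huv⟩ := hw
      intro h0
      apply huv
      have h1 := congrFun (congrFun h0 u) v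
      rw [← ZMod.intCast_zmod_eq_zero_iff_dvd]
      exact h1)
  have h2 : (Finset.univ.filter fun w' : Matrix (Fin (2 * g)) (Fin (2 * g)) (ZMod p) =>
      ∃ x : ZMod p, (al w' + x • red p (dif w)).det = 0).card ≤
      Nat.card {w' : Matrix (Fin (2 * g)) (Fin (2 * g)) (ZMod p) //
        ∃ w0 ∈ Set.range (fun x : ℤ => x • w), (al w' + red p (dif w0)).det = 0} := by
    classical
    rw [Nat.card_eq_fintype_card, Fintype.card_subtype]
    refine Finset.card_le_card fun w' hw' => ?_
    rw [Finset.mem_filter] at hw' ⊢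
    obtain ⟨_, x, hx⟩ := hw'
    haveI : NeZero p := ⟨hp.ne_zero⟩
    refine ⟨Finset.mem_univ _, ((x.val : ℕ) : ℤ) • w, ⟨_, rfl⟩, ?_⟩
    have e : red p (dif (((x.val : ℕ) : ℤ) • w)) = x • red p (dif w) := by
      ext u v
      simp only [red, dif, Matrix.map_apply, Matrix.of_apply, Pi.smul_apply, smul_eq_mul, eq_intCast,
        Matrix.smul_apply]
      push_cast
      simp only [ZMod.natCast_val, ZMod.cast_id', id]
      ring
    rw [e]
    exact hx
  have hM : 0 < Fintype.card (Matrix (Fin (2 * g)) (Fin (2 * g)) (ZMod p)) := Fintype.card_pos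
  have hS0 : 0 < Nat.card S := Nat.card_pos
  have h3 : Nat.card S * Fintype.card (Matrix (Fin (2 * g)) (Fin (2 * g)) (ZMod p)) <
      Fintype.card (Matrix (Fin (2 * g)) (Fin (2 * g)) (ZMod p)) * (2 * good) := by
    calc Nat.card S * Fintype.card (Matrix (Fin (2 * g)) (Fin (2 * g)) (ZMod p))
        < Nat.card S * (2 * (Finset.univ.filter fun w' : Matrix (Fin (2 * g)) (Fin (2 * g)) (ZMod p) =>
      ∃ x : ZMod p, (al w' + x • red p (dif w)).det = 0).card) := Nat.mul_lt_mul_of_pos_left hh hS0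
      _ ≤ Nat.card S * (2 * Nat.card {w' : Matrix (Fin (2 * g)) (Fin (2 * g)) (ZMod p) //
        ∃ w0 ∈ Set.range (fun x : ℤ => x • w), (al w' + red p (dif w0)).det = 0}) :=
          Nat.mul_le_mul_left _ (Nat.mul_le_mul_left _ h2)
      _ = 2 * (Nat.card S * Nat.card {w' : Matrix (Fin (2 * g)) (Fin (2 * g)) (ZMod p) //
        ∃ w0 ∈ Set.range (fun x : ℤ => x • w), (al w' + red p (dif w0)).det = 0}) := by ring
      _ ≤ 2 * (Fintype.card (Matrix (Fin (2 * g)) (Fin (2 * g)) (ZMod p)) * good) := Nat.mul_le_mul_left _ hcard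
      _ = _ := by ring
  rw [mul_comm] at h3
  exact Nat.lt_of_mul_lt_mul_left h3

end Pool.Agent.Results.MP_43d240_ag.HalfOfTheClasses
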