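import Mathlib
import Pool.Agent.Q128.PI.PowCls

/-! Unramified period-index: classes of prime power period on abelian varieties with one or two divisor classes. -/

set_option autoImplicit false
set_option linter.all false

open Matrix

namespace Pool.Agent.Results.MP_43d240_ag.PrimePowerPeriods

open Pool.Agent.H552R3.SymBr Pool.Agent.H552R3.SymPred Pool.Agent.Y109.PI Pool.Agent.Q128.PI

universe u

theorem zcast {p : ℕ} [Fact p.Prime] (t : ZMod p) : (((t.val : ℕ) : ℤ) : ZMod p) = t := by
  haveI : NeZero p := ⟨(Fact.out : p.Prime).ne_zero⟩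
  push_cast
  simp

/-- Let `K` be an extension of an algebraically closed field `k`, let `p` be a prime number, `m ≥ 1`, `ζ ∈ K` a
primitive `p ^ m`-th root of unity and `z_1, ..., z_{2g}` nonzero elements of `K`; let `θ u v` be the class of the
symbol algebra `(z_u, z_v)` of degree `p ^ m` and let `S` be the subgroup of `Br(K)` generated by these classes.
Call a class good if it is the sum of `g - 1` symbols of degree `p ^ m` and has index dividing `(p ^ m) ^ (g - 1)`.
(1) If there is an integral matrix `w` with `∑ w(u,v) (z_u, z_v) = 0` in `Br(K)` such that `w - wᵀ` is not divisible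
by `p`, then `S` is finite and the proportion of good classes in `S` is greater than `1 / 2 - 2 / p`.
(2) If there are two such matrices `w, w'` such that `w - wᵀ` and `w' - w'ᵀ` are linearly independent modulo `p`,
then `S` is finite and the proportion of classes in `S` which are not good is less than `7 / p`. -/
theorem result {k K : Type u} [Field k] [IsAlgClosed k] [Field K] [Algebra k K] (p m : ℕ) (hp : p.Prime)
    (hm : 0 < m) (ζ : K) (hζ : IsPrimitiveRoot ζ (p ^ m)) (g : ℕ) (z : Fin (2 * g) → Kˣ)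
    (θ : Fin (2 * g) → Fin (2 * g) → BrauerGroup.{u, u} K) (hθ : ∀ u v, IsSym (p ^ m) ζ (z u) (z v) (θ u v))
    (S : Subgroup (BrauerGroup.{u, u} K)) (hS : S = Subgroup.closure {γ | ∃ u v, γ = θ u v}) :
    (∀ w : Fin (2 * g) → Fin (2 * g) → ℤ, (∃ u v, ¬ (p : ℤ) ∣ w u v - w v u) →
      ∏ u, ∏ v, θ u v ^ w u v = 1 →
      Finite S ∧
        p * Nat.card S < 2 * p * Nat.card {α : S // IndDvd (α : BrauerGroup.{u, u} K) ((p ^ m) ^ (g - 1)) ∧
          ∃ (s t : Fin (g - 1) → Kˣ) (σ : Fin (g - 1) → BrauerGroup.{u, u} K),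
            (∀ i, IsSym (p ^ m) ζ (s i) (t i) (σ i)) ∧ (α : BrauerGroup.{u, u} K) = ∏ i, σ i} +
          4 * Nat.card S) ∧
    (∀ w w' : Fin (2 * g) → Fin (2 * g) → ℤ,
      (∀ c c' : ℤ, (∀ u v, (p : ℤ) ∣ c * (w u v - w v u) + c' * (w' u v - w' v u)) →
        (p : ℤ) ∣ c ∧ (p : ℤ) ∣ c') →
      ∏ u, ∏ v, θ u v ^ w u v = 1 → ∏ u, ∏ v, θ u v ^ w' u v = 1 →
      Finite S ∧
        p * Nat.card {α : S // ¬ (IndDvd (α : BrauerGroup.{u, u} K) ((p ^ m) ^ (g - 1)) ∧
          ∃ (s t : Fin (g - 1) → Kˣ) (σ : Fin (g - 1) → BrauerGroup.{u, u} K),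
            (∀ i, IsSym (p ^ m) ζ (s i) (t i) (σ i)) ∧ (α : BrauerGroup.{u, u} K) = ∏ i, σ i)} <
          7 * Nat.card S) := by
  classical
  haveI : Fact p.Prime := ⟨hp⟩
  haveI : NeZero p := ⟨hp.ne_zero⟩
  set P : S → Prop := fun α => IndDvd (α : BrauerGroup.{u, u} K) ((p ^ m) ^ (g - 1)) ∧
        ∃ (s t : Fin (g - 1) → Kˣ) (σ : Fin (g - 1) → BrauerGroup.{u, u} K),
          (∀ i, IsSym (p ^ m) ζ (s i) (t i) (σ i)) ∧ (α : BrauerGroup.{u, u} K) = ∏ i, σ i with hP
  set good := Nat.card {α : S // P α} with hgood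
  set bad := Nat.card {α : S // ¬ P α} with hbad
  set M := Fintype.card (Matrix (Fin (2 * g)) (Fin (2 * g)) (ZMod p)) with hM
  have hM0 : 0 < M := Fintype.card_pos
  have hI : Fintype.card (Fin (2 * g)) = 2 * g := Fintype.card_fin _
  have haltr : ∀ w : Fin (2 * g) → Fin (2 * g) → ℤ, AltM (red p (dif w)) := fun w =>
    ⟨fun u => by simp [red, dif], fun u v => by simp [red, dif]⟩
  have hcomb : ∀ (w w' : Fin (2 * g) → Fin (2 * g) → ℤ) (x y : ZMod p),
      red p (dif (((x.val : ℕ) : ℤ) • w + ((y.val : ℕ) : ℤ) • w')) = x • red p (dif w) + y • red p (dif w') := by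
    intro w w' x y
    ext u v
    simp only [red, dif, Matrix.map_apply, Matrix.of_apply, Pi.smul_apply, smul_eq_mul, eq_intCast,
      Matrix.smul_apply, Pi.add_apply, Matrix.add_apply]
    rw [Int.cast_sub, Int.cast_add, Int.cast_add, Int.cast_mul, Int.cast_mul, Int.cast_mul, Int.cast_mul, zcast, zcast,
      Int.cast_sub, Int.cast_sub]
    ring
  have hprod : ∀ (w w' : Fin (2 * g) → Fin (2 * g) → ℤ) (x y : ℤ), ∏ u, ∏ v, θ u v ^ (x • w + y • w') u v =
        (∏ u, ∏ v, θ u v ^ w u v) ^ x * (∏ u, ∏ v, θ u v ^ w' u v) ^ y := by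
    intro w w' x y
    rw [← Finset.prod_zpow, ← Finset.prod_zpow, ← Finset.prod_mul_distrib]
    refine Finset.prod_congr rfl fun u _ => ?_
    rw [← Finset.prod_zpow, ← Finset.prod_zpow, ← Finset.prod_mul_distrib]
    refine Finset.prod_congr rfl fun v _ => ?_
    rw [← _root_.zpow_mul, ← _root_.zpow_mul, mul_comm (w u v) x, mul_comm (w' u v) y, ← _root_.zpow_add]
    rfl
  constructor
  · intro w hw hrel
    have hD0 : red p (dif w) ≠ 0 := by
      obtain ⟨u, v, huv⟩ := hw
      intro h0
      apply huv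
      have h1 := congrFun (congrFun h0 u) v
      rw [← ZMod.intCast_zmod_eq_zero_iff_dvd]
      exact h1
    obtain ⟨hfin, hcard⟩ := count_pow (k := k) p m hm ζ hζ g z θ hθ (Set.range fun x : ℤ × ℤ => x.1 • w + x.2 • w) (by
      rintro _ ⟨x, rfl⟩
      rw [hprod, hrel, _root_.one_zpow, _root_.one_zpow, one_mul])
      (Smp (fun x : ZMod p => x • red p (dif w)) (red p (dif w)) 0) (by
        rintro w' ⟨x, a, b, h1, h2, h3, h4, h5⟩
        have e : red p (dif (((x.val : ℕ) : ℤ) • w + (((0 : ZMod p).val : ℕ) : ℤ) • w)) = x • red p (dif w) := by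
          rw [hcomb, zero_smul, add_zero]
        refine ⟨_, ⟨(((x.val : ℕ) : ℤ), (((0 : ZMod p).val : ℕ) : ℤ)), rfl⟩, w, ⟨(1, 0), ?_⟩, a, b, h1, ?_, ?_, ?_, ?_⟩
        · simp
        · simp only [e]; exact h2
        · simp only [e]; exact h3
        · simp only [e]; exact h4
        · rcases h5 with h5 | h5
          · exact h5
          · exact absurd (by simp) h5) S hS
    refine ⟨hfin, ?_⟩
    haveI := hfin
    have hh := simple_one (F := ZMod p) (I := Fin (2 * g)) g hI (red p (dif w)) (haltr w) hD0 (by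
      rw [ZMod.card]
      rintro rfl
      exact absurd hp (by norm_num))
    rw [ZMod.card] at hh
    have e2 : Nat.card {w' : Matrix (Fin (2 * g)) (Fin (2 * g)) (ZMod p) //
        Smp (fun x : ZMod p => x • red p (dif w)) (red p (dif w)) 0 w'} =
        (Finset.univ.filter fun w' : Matrix (Fin (2 * g)) (Fin (2 * g)) (ZMod p) =>
          Smp (fun x : ZMod p => x • red p (dif w)) (red p (dif w)) 0 w').card := by
      rw [Nat.card_eq_fintype_card, Fintype.card_subtype]
    rw [e2] at hcard
    set N := (Finset.univ.filter fun w' : Matrix (Fin (2 * g)) (Fin (2 * g)) (ZMod p) =>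
          Smp (fun x : ZMod p => x • red p (dif w)) (red p (dif w)) 0 w').card with hN
    have hS0 : 0 < Nat.card S := Nat.card_pos
    have h4 : Nat.card S * (p * M) < Nat.card S * (2 * p * N + 4 * M) := Nat.mul_lt_mul_of_pos_left hh hS0
    have h5 : M * (p * Nat.card S) < M * (2 * p * good + 4 * Nat.card S) := by
      calc M * (p * Nat.card S) = Nat.card S * (p * M) := by ring
        _ < Nat.card S * (2 * p * N + 4 * M) := h4
        _ = 2 * p * (Nat.card S * N) + M * (4 * Nat.card S) := by ring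
        _ ≤ 2 * p * (M * good) + M * (4 * Nat.card S) := Nat.add_le_add_right (Nat.mul_le_mul_left _ hcard) _
        _ = _ := by ring
    exact Nat.lt_of_mul_lt_mul_left h5
  · intro w w' hw hrel hrel'
    obtain ⟨hfin, hcard⟩ := count_pow (k := k) p m hm ζ hζ g z θ hθ (Set.range fun x : ℤ × ℤ => x.1 • w + x.2 • w') (by
      rintro _ ⟨x, rfl⟩
      rw [hprod, hrel, hrel', _root_.one_zpow, _root_.one_zpow, one_mul])
      (Smp (fun x : ZMod p × ZMod p => x.1 • red p (dif w) + x.2 • red p (dif w')) (red p (dif w)) (red p (dif w'))) (by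
        rintro w'' ⟨x, a, b, h1, h2, h3, h4, h5⟩
        have e := hcomb w w' x.1 x.2
        rcases h5 with h5 | h5
        · refine ⟨_, ⟨(((x.1.val : ℕ) : ℤ), ((x.2.val : ℕ) : ℤ)), rfl⟩, w, ⟨(1, 0), ?_⟩, a, b, h1, ?_, ?_, ?_, h5⟩
          · simp
          · simp only [e]; exact h2
          · simp only [e]; exact h3
          · simp only [e]; exact h4
        · refine ⟨_, ⟨(((x.1.val : ℕ) : ℤ), ((x.2.val : ℕ) : ℤ)), rfl⟩, w', ⟨(0, 1), ?_⟩, a, b, h1, ?_, ?_, ?_, h5⟩
          · simp
          · simp only [e]; exact h2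
          · simp only [e]; exact h3
          · simp only [e]; exact h4) S hS
    refine ⟨hfin, ?_⟩
    haveI := hfin
    have hsum : good + bad = Nat.card S := by
      haveI : Fintype S := Fintype.ofFinite S
      rw [hgood, hbad, Nat.card_eq_fintype_card, Nat.card_eq_fintype_card, Nat.card_eq_fintype_card]
      have := Fintype.card_subtype_compl P
      have h2 := Fintype.card_subtype_le P
      omega
    have hh := simple_two (F := ZMod p) (I := Fin (2 * g)) g hI (red p (dif w)) (red p (dif w')) (haltr w) (haltr w') (by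
      intro x y hxy
      have h1 := hw ((x.val : ℕ) : ℤ) ((y.val : ℕ) : ℤ) (fun u v => by
        have h2 := congrFun (congrFun hxy u) v
        rw [← ZMod.intCast_zmod_eq_zero_iff_dvd]
        simp only [red, dif, Matrix.add_apply, Matrix.smul_apply, Matrix.map_apply, Matrix.of_apply, smul_eq_mul,
          eq_intCast, Matrix.zero_apply] at h2
        rw [Int.cast_add, Int.cast_mul, Int.cast_mul, zcast, zcast]
        exact h2)
      have e : ∀ t : ZMod p, (p : ℤ) ∣ ((t.val : ℕ) : ℤ) → t = 0 := by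
        intro t ht
        rw [← ZMod.intCast_zmod_eq_zero_iff_dvd, zcast] at ht
        exact ht
      exact ⟨e x h1.1, e y h1.2⟩)
    rw [ZMod.card] at hh
    have e2 : Nat.card {v : Matrix (Fin (2 * g)) (Fin (2 * g)) (ZMod p) //
        Smp (fun x : ZMod p × ZMod p => x.1 • red p (dif w) + x.2 • red p (dif w')) (red p (dif w)) (red p (dif w')) v} =
        (Finset.univ.filter fun v : Matrix (Fin (2 * g)) (Fin (2 * g)) (ZMod p) =>
          Smp (fun x : ZMod p × ZMod p => x.1 • red p (dif w) + x.2 • red p (dif w')) (red p (dif w))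
            (red p (dif w')) v).card := by
      rw [Nat.card_eq_fintype_card, Fintype.card_subtype]
    rw [e2] at hcard
    set N := (Finset.univ.filter fun v : Matrix (Fin (2 * g)) (Fin (2 * g)) (ZMod p) =>
          Smp (fun x : ZMod p × ZMod p => x.1 • red p (dif w) + x.2 • red p (dif w')) (red p (dif w))
            (red p (dif w')) v).card with hN
    have hS0 : 0 < Nat.card S := Nat.card_pos
    have h4 : Nat.card S * (p * M) < Nat.card S * (p * N + 7 * M) := Nat.mul_lt_mul_of_pos_left hh hS0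
    have h5 : M * (p * Nat.card S) < M * (p * good + 7 * Nat.card S) := by
      calc M * (p * Nat.card S) = Nat.card S * (p * M) := by ring
        _ < Nat.card S * (p * N + 7 * M) := h4
        _ = p * (Nat.card S * N) + M * (7 * Nat.card S) := by ring
        _ ≤ p * (M * good) + M * (7 * Nat.card S) := Nat.add_le_add_right (Nat.mul_le_mul_left _ hcard) _
        _ = _ := by ring
    have h6 := Nat.lt_of_mul_lt_mul_left h5
    change p * bad < 7 * Nat.card S
    rw [← hsum] at h6 ⊢
    nlinarith [h6]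

end Pool.Agent.Results.MP_43d240_ag.PrimePowerPeriods
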