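import Mathlib
import Pool.Agent.Q128.PI.AllDeg

/-! Unramified period-index for abelian varieties with real multiplication: periods with repeated prime factors. -/

set_option autoImplicit false
set_option linter.all false

open Matrix

namespace Pool.Agent.Results.MP_43d240_ag.RealMultiplicationAllPeriods

open Pool.Agent.Helper18.Br Pool.Agent.H552R3.SymBr Pool.Agent.H552R3.SymPred Pool.Agent.H552R3.Tsen
  Pool.Agent.Y109.PI Pool.Agent.Q128.PI

universe u v

/-- Let `K` be an extension of an algebraically closed field `k`, let `n ≥ 1`, let `ζ ∈ K` be a primitive `n`-th root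
of unity and let `x_1, ..., x_g, y_1, ..., y_g` (`g ≥ 1`) be nonzero elements of `K`. Let `O` be a commutative ring
which is free of rank `g` over `ℤ`, with basis `ε_1, ..., ε_g` and a discriminant prime to `n`, such that for every
prime number `p` with `p² ∣ n` there is a ring homomorphism `O → ℤ / p` (`O` has a prime of degree one above `p`).
Suppose that `∑_{k, l} Tr(ε_i ε_k ε_l) (x_k, y_l) = 0` in `Br(K)` for all `i`, where `(a, b)` are the symbols of
degree `n`. Then every class in the subgroup of `Br(K)` generated by all symbols of degree `n` with entries in the group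
generated by `kˣ`, the `x_k` and the `y_l` is the sum of `g - 1` symbols of degree `n`, and its index divides
`n ^ (g - 1)`. -/
theorem result {k K : Type u} [Field k] [IsAlgClosed k] [Field K] [Algebra k K] (n : ℕ) (hn : 0 < n)
    (ζ : K) (hζ : IsPrimitiveRoot ζ n) (g : ℕ) (hg : 0 < g) (x y : Fin g → Kˣ)
    (O : Type v) [CommRing O] (ε : Module.Basis (Fin g) ℤ O)
    (hd : ∀ p : ℕ, p.Prime → p ∣ n → ¬ (p : ℤ) ∣ Algebra.discr ℤ ε)
    (hdeg : ∀ p : ℕ, p.Prime → p ^ 2 ∣ n → Nonempty (O →+* ZMod p))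
    (θ : Fin g → Fin g → BrauerGroup.{u, u} K) (hθ : ∀ i j, IsSym n ζ (x i) (y j) (θ i j))
    (hrel : ∀ i, ∏ j, ∏ l, θ j l ^ Algebra.trace ℤ O (ε i * ε j * ε l) = 1)
    (G : Subgroup Kˣ) (hG : G = Subgroup.closure (Set.range (Units.map (algebraMap k K).toMonoidHom) ∪
      Set.range x ∪ Set.range y))
    (α : BrauerGroup.{u, u} K) (hα : α ∈ Subgroup.closure {γ | ∃ a ∈ G, ∃ b ∈ G, IsSym n ζ a b γ}) :
    (∃ (s t : Fin (g - 1) → Kˣ) (σ : Fin (g - 1) → BrauerGroup.{u, u} K),
      (∀ i, IsSym n ζ (s i) (t i) (σ i)) ∧ α = ∏ i, σ i) ∧ IndDvd α (n ^ (g - 1)) := by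
  let z : Fin g ⊕ Fin g → Kˣ := Sum.elim x y
  let H : Subgroup Kˣ := (Units.map (algebraMap k K).toMonoidHom).range
  have hneg : (-1 : Kˣ) ∈ H := by
    refine ⟨-1, ?_⟩
    ext
    simp
  -- constants are `n`-th powers
  have hconst : ∀ a ∈ H, ∀ b, symHom hn hζ a b = 1 := by
    rintro _ ⟨c, rfl⟩ b
    obtain ⟨d, hd⟩ := IsAlgClosed.exists_pow_nat_eq (c : k) hn
    have hd0 : d ≠ 0 := by
      rintro rfl
      rw [zero_pow hn.ne'] at hd
      exact c.ne_zero hd.symm
    have hc : c = (Units.mk0 d hd0) ^ n := by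
      ext
      rw [Units.val_pow_eq_pow_val, Units.val_mk0, hd]
    rw [hc, map_pow, map_pow, MonoidHom.pow_apply, symHom_apply, symCl_tors]
  have hVH : ∀ a ∈ H, ∀ b ∈ H, symHom hn hζ a b ∈ (⊥ : Subgroup (BrauerGroup.{u, u} K)) := fun a ha b _ => by
    rw [hconst a ha b]; exact Subgroup.one_mem _
  have hlow : low (symHom hn hζ) H ⊥ z ≤ (⊥ : Subgroup (BrauerGroup.{u, u} K)) := by
    refine sup_le le_rfl ?_
    rw [Subgroup.closure_le]
    rintro γ ⟨a, ha, u, rfl⟩
    rw [hconst a ha]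
    exact Subgroup.one_mem _
  have hGH : G = H ⊔ Subgroup.closure (Set.range z) := by
    have hz : Set.range z = Set.range x ∪ Set.range y := Set.Sum.elim_range x y
    rw [hG, hz, Set.union_assoc, Subgroup.closure_union]
    congr 1
    exact Subgroup.closure_eq H
  have hα' : α ∈ Subgroup.closure {γ | ∃ a ∈ H ⊔ Subgroup.closure (Set.range z),
      ∃ b ∈ H ⊔ Subgroup.closure (Set.range z), γ = symHom hn hζ a b} := by
    have : {γ | ∃ a ∈ G, ∃ b ∈ G, IsSym n ζ a b γ} = {γ | ∃ a ∈ H ⊔ Subgroup.closure (Set.range z),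
      ∃ b ∈ H ⊔ Subgroup.closure (Set.range z), γ = symHom hn hζ a b} := by
      ext γ
      simp only [Set.mem_ofPred_eq, isSym_iff hn hζ, hGH, symHom_apply]
    rw [← this]; exact hα
  have hQ : ∀ i, Q (symHom hn hζ) z (rmw ε i) = 1 := by
    intro i
    rw [← hrel i, Q, Fintype.prod_prod_type]
    change ∏ u : Fin g ⊕ Fin g, ∏ v : Fin g ⊕ Fin g, symHom hn hζ (z u) (z v) ^ rmw ε i u v = _
    rw [Fintype.prod_sum_type]
    have e2 : ∏ u : Fin g, ∏ v : Fin g ⊕ Fin g, symHom hn hζ (z (Sum.inr u)) (z v) ^ rmw ε i (Sum.inr u) v = 1 :=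
      Finset.prod_eq_one fun u _ => Finset.prod_eq_one fun v _ => by simp [rmw]
    rw [e2, mul_one]
    refine Finset.prod_congr rfl fun u _ => ?_
    rw [Fintype.prod_sum_type]
    have e3 : ∏ v : Fin g, symHom hn hζ (z (Sum.inl u)) (z (Sum.inl v)) ^ rmw ε i (Sum.inl u) (Sum.inl v) = 1 :=
      Finset.prod_eq_one fun v _ => by simp [rmw]
    rw [e3, one_mul]
    refine Finset.prod_congr rfl fun v _ => ?_
    rw [(isSym_iff hn hζ (x u) (y v) (θ u v)).1 (hθ u v)]
    rfl
  obtain ⟨s, t, hst⟩ := abs_gen (s := symHom hn hζ) (fun a b => symCl_anti hn hζ a b) n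
    (fun a b => symCl_tors hn hζ a b) (-1) H hneg (fun a => symCl_diag hn hζ a) ⊥ hVH g z (rmw ε)
    (fun i => by rw [hQ i]; exact Subgroup.one_mem _) (fun b hb => deg_all ε hg n hn hd hdeg b hb) α hα'
  have h1 := hlow hst
  rw [Subgroup.mem_bot, mul_inv_eq_one] at h1
  refine ⟨⟨s, t, fun i => symCl hn hζ (s i) (t i), fun i => (isSym_iff hn hζ _ _ _).2 rfl, h1⟩, ?_⟩
  rw [h1]
  exact (hasRep_prod hn hζ (g - 1) s t).indDvd

end Pool.Agent.Results.MP_43d240_ag.RealMultiplicationAllPeriods
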